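import Pool.Agent.V11113.PS.Main

/-!
# Periodic shadowing of weighted shifts does not depend on the space `ℓᵖ` or `c₀`
-/

set_option autoImplicit false

namespace Pool.Agent.Results.MP_2e038a_an.SameForAll

open Filter Topology Pool.Agent.V11113.PS ZeroAtInfty

section concrete

variable (𝕜 : Type) [RCLike 𝕜]

/-- `ℓᵖ(ℤ)` as an abstract sequence space -/
noncomputable def lpSpace (p : ENNReal) [Fact (1 ≤ p)] (hp : p ≠ ⊤) :
    ZSpace 𝕜 (lp (fun _ : ℤ => 𝕜) p) := by
  have hp0 : p ≠ 0 := (lt_of_lt_of_le one_pos (Fact.out : 1 ≤ p)).ne'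
  have hpr : 0 < p.toReal := ENNReal.toReal_pos hp0 hp
  exact
  { co :=
      { toFun := fun x => x
        map_add' := fun x y => lp.coeFn_add x y
        map_smul' := fun c x => lp.coeFn_smul c x }
    inj := fun x y h => lp.ext h
    eval := fun x n => lp.norm_apply_le_norm hp0 x n
    dom := fun x j C f hC hf => by
      have hsh : Memℓp (fun n => x (n + j)) p := by
        apply memℓp_gen
        exact ((Equiv.addRight j).summable_iff).2 ((lp.memℓp x).summable hpr)
      have hmem : Memℓp f p := by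
        apply (hsh.norm.const_smul C).mono
        intro n
        exact hf n
      refine ⟨⟨f, hmem⟩, rfl, ?_⟩
      apply lp.norm_le_of_forall_sum_le hpr (by positivity)
      intro s
      calc ∑ i ∈ s, ‖f i‖ ^ p.toReal ≤ ∑ i ∈ s, (C * ‖x (i + j)‖) ^ p.toReal := by
            gcongr with i _
            exact hf i
        _ = C ^ p.toReal * ∑ i ∈ s, ‖x (i + j)‖ ^ p.toReal := by
            rw [Finset.mul_sum]
            refine Finset.sum_congr rfl fun i _ => ?_
            rw [Real.mul_rpow hC (norm_nonneg _)]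
        _ = C ^ p.toReal * ∑ i ∈ s.map (addRightEmbedding j), ‖x i‖ ^ p.toReal := by
            rw [Finset.sum_map]
            rfl
        _ ≤ C ^ p.toReal * ‖x‖ ^ p.toReal := by
            gcongr
            exact lp.sum_rpow_le_norm_rpow hpr x _
        _ = (C * ‖x‖) ^ p.toReal := (Real.mul_rpow hC (norm_nonneg _)).symm
    e := fun n => lp.single p n (1 : 𝕜)
    co_e := fun n => by
      funext m
      exact lp.coeFn_single (E := fun _ : ℤ => 𝕜) p n (1 : 𝕜) ▸ rfl
    norm_e := fun n => by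
      rw [lp.norm_single (lt_of_lt_of_le one_pos (Fact.out : 1 ≤ p)), norm_one] }

lemma c0_of {f : ℤ → 𝕜} (hf : Tendsto f cofinite (𝓝 0)) : ∃ y : C₀(ℤ, 𝕜), (y : ℤ → 𝕜) = f :=
  ⟨⟨⟨f, continuous_of_discreteTopology⟩, by
    change Tendsto f _ _
    rwa [Filter.cocompact_eq_cofinite]⟩, rfl⟩

lemma c0_tendsto (x : C₀(ℤ, 𝕜)) : Tendsto (fun n => x n) cofinite (𝓝 0) := by
  have := x.zero_at_infty'
  rwa [Filter.cocompact_eq_cofinite] at this

lemma c0_eval (x : C₀(ℤ, 𝕜)) (n : ℤ) : ‖x n‖ ≤ ‖x‖ :=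
  x.toBCF.norm_coe_le_norm n

lemma c0_norm_le (x : C₀(ℤ, 𝕜)) (C : ℝ) (hC : 0 ≤ C) (h : ∀ n, ‖x n‖ ≤ C) : ‖x‖ ≤ C :=
  (BoundedContinuousFunction.norm_le (f := x.toBCF) hC).2 h

lemma single_tendsto (n : ℤ) : Tendsto (Pi.single n 1 : ℤ → 𝕜) cofinite (𝓝 0) := by
  apply tendsto_const_nhds.congr'
  have h : ∀ᶠ m : ℤ in cofinite, m ≠ n := by
    rw [eventually_cofinite]
    apply (Set.finite_singleton n).subset
    intro m hm
    simpa using hm
  filter_upwards [h] with m hm
  rw [Pi.single_eq_of_ne hm]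

/-- `c₀(ℤ)` as an abstract sequence space -/
noncomputable def c0Space : ZSpace 𝕜 C₀(ℤ, 𝕜) where
  co :=
    { toFun := fun x => x
      map_add' := fun x y => rfl
      map_smul' := fun c x => rfl }
  inj := fun x y h => DFunLike.coe_injective h
  eval := fun x n => c0_eval 𝕜 x n
  dom := fun x j C f hC hf => by
    have h1 : Tendsto f cofinite (𝓝 0) := by
      have h2 : Tendsto (fun n => C * ‖x (n + j)‖) cofinite (𝓝 (C * ‖(0 : 𝕜)‖)) :=
        ((c0_tendsto 𝕜 x).comp (add_left_injective j).tendsto_cofinite).norm.const_mul C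
      rw [norm_zero, mul_zero] at h2
      exact squeeze_zero_norm hf h2
    obtain ⟨y, hy⟩ := c0_of 𝕜 h1
    refine ⟨y, hy, ?_⟩
    apply c0_norm_le 𝕜 y _ (by positivity)
    intro n
    rw [hy]
    refine (hf n).trans ?_
    have := c0_eval 𝕜 x (n + j)
    gcongr
    exact this
  e := fun n => (c0_of 𝕜 (single_tendsto 𝕜 n)).choose
  co_e := fun n => (c0_of 𝕜 (single_tendsto 𝕜 n)).choose_spec
  norm_e := fun n => by
    apply c0_norm_le 𝕜 _ _ zero_le_one
    intro m
    rw [(c0_of 𝕜 (single_tendsto 𝕜 n)).choose_spec]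
    by_cases h : m = n
    · subst h
      simp
    · rw [Pi.single_eq_of_ne h]
      simp

end concrete

section defs

variable {𝕜 : Type} [RCLike 𝕜] {X : Type} [NormedAddCommGroup X] [NormedSpace 𝕜 X]

/-- `T` is the weighted shift `B_w` on the sequence space `X` with coordinates `co`. -/
def IsShift (co : X → ℤ → 𝕜) (w : ℤ → 𝕜) (T : X ≃L[𝕜] X) : Prop :=
  ∀ x n, co (T x) n = w (n + 1) * co x (n + 1)

/-- The weighted shift exists as an invertible operator. -/
def ShiftExists (co : X → ℤ → 𝕜) (w : ℤ → 𝕜) : Prop :=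
  ∃ T : X ≃L[𝕜] X, IsShift co w T

/-- The weighted shift has the periodic shadowing property. -/
def ShiftPSP (co : X → ℤ → 𝕜) (w : ℤ → 𝕜) : Prop :=
  ∃ T : X ≃L[𝕜] X, IsShift co w T ∧ PSP T

end defs

/-- coordinates on `ℓᵖ(ℤ)` -/
def lpCo (𝕜 : Type) [RCLike 𝕜] (p : ENNReal) (x : lp (fun _ : ℤ => 𝕜) p) (n : ℤ) : 𝕜 := x n

/-- coordinates on `c₀(ℤ)` -/
def c0Co (𝕜 : Type) [RCLike 𝕜] (x : C₀(ℤ, 𝕜)) (n : ℤ) : 𝕜 := x n

/-- **The periodic shadowing property of `B_w` on `ℓᵖ(ℤ)`, `1 ≤ p < ∞`, is equivalent to that on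
`c₀(ℤ)`.** For every bounded weight `w` with `inf |w_n| > 0` the weighted shift exists as an
invertible operator on both spaces (it is unique, being given by the formula), and it has the
periodic shadowing property on one if and only if it has it on the other. -/
theorem result (𝕜 : Type) [RCLike 𝕜] (p : ENNReal) [Fact (1 ≤ p)] (hp : p ≠ ⊤) (w : ℤ → 𝕜)
    (hW : ∃ W : ℝ, ∀ n, ‖w n‖ ≤ W) (hm : ∃ m : ℝ, 0 < m ∧ ∀ n, m ≤ ‖w n‖) :
    ShiftExists (lpCo 𝕜 p) w ∧ ShiftExists (c0Co 𝕜) w ∧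
      (ShiftPSP (lpCo 𝕜 p) w ↔ ShiftPSP (c0Co 𝕜) w) := by
  obtain ⟨D, hD⟩ := exists_setting (lpSpace 𝕜 p hp) w hW hm
  obtain ⟨D', hD'⟩ := exists_setting (c0Space 𝕜) w hW hm
  have h1 : IsShift (lpCo 𝕜 p) w D.T := by
    intro x n
    rw [← hD]
    exact D.hT x n
  have h2 : IsShift (c0Co 𝕜) w D'.T := by
    intro x n
    rw [← hD']
    exact D'.hT x n
  have key : PSP D.T ↔ PSP D'.T := by
    rw [D.psp_iff, D'.psp_iff, b_unique D D' (hD.trans hD'.symm)]
  refine ⟨⟨D.T, h1⟩, ⟨D'.T, h2⟩, ?_, ?_⟩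
  · rintro ⟨T, hT, hP⟩
    have : T = D.T := by
      apply ContinuousLinearEquiv.ext
      funext x
      apply (lpSpace 𝕜 p hp).inj
      funext n
      exact (hT x n).trans (h1 x n).symm
    rw [this] at hP
    exact ⟨D'.T, h2, key.1 hP⟩
  · rintro ⟨T, hT, hP⟩
    have : T = D'.T := by
      apply ContinuousLinearEquiv.ext
      funext x
      apply (c0Space 𝕜).inj
      funext n
      exact (hT x n).trans (h2 x n).symm
    rw [this] at hP
    exact ⟨D.T, h1, key.2 hP⟩

end Pool.Agent.Results.MP_2e038a_an.SameForAll
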